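import Mathlib
import Pool.Agent.H.MP_15e54c_lc.A

namespace Pool.Agent.Results.MP_11d5c7_lc.Yes

open Set MeasureTheory Pool.Agent.H.MP_15e54c_lc.A

/-- The overlap of the translates of `B` by `x` and by `y`. -/
def ov (B : Set (ℕ → ZMod 2)) (x y : ℕ → ZMod 2) : Set (ℕ → ZMod 2) :=
  (· + x) '' B ∩ (· + y) '' B

theorem result : ∃ B : Set (ℕ → ZMod 2), MeasurableSet[borel _] B ∧
    (∃ H : Set (ℕ → ZMod 2), ¬ H.Countable ∧ ∀ x ∈ H, ∀ y ∈ H, ¬ (ov B x y).Countable) ∧
    ∀ P, Perfect P → P.Nonempty → ∃ x ∈ P, ∃ y ∈ P, (ov B x y).Finite := by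
  let T : ℕ → G → G := fun n y => φ (sl y 0) + φ (sl (sl y 0) n)
  let Z : ℕ → Set G := fun n => {y | sl y 1 = Pi.single n 1}
  let f : ℕ × ZMod 2 → G → G := fun i y => (fun j => φ y (j + 4)) + i.2 • T i.1 y
  let S : G → G := fun p i => if i % 5 = 4 then p (i - 4) else 0
  have S1 : ∀ p q, S (p + q) = S p + S q := fun p q => funext fun i => by
    simp only [S, Pi.add_apply]; split_ifs <;> simp
  have S2 : ∀ i y, S (f i y) = φ y := fun i y => funext fun j => by
    by_cases h : j % 5 = 4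
    · have h1 : j - 4 + 4 = j := by omega
      have h2 : ∀ x, φ x (j - 4) = 0 := fun x => if_neg fun k => by omega
      simp [S, f, T, h, h1, h2]
    · simp [S, φ, h]
  have zu : ∀ y n m, y ∈ Z n → y ∈ Z m → n = m := fun y n m h k => by
    have := congrFun (Eq.trans (Eq.symm h) k) n
    by_contra l
    simp [l] at this
  refine ⟨⋃ i, f i '' Z i.1, ?_, ?_, fun P h1 h2 => ?_⟩
  · rw [← BorelSpace.measurable_eq]
    refine MeasurableSet.iUnion fun i => (((isClosed_eq (slc 1) continuous_const).isCompact).image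
      ?_).measurableSet
    refine Continuous.add (continuous_pi fun j => (continuous_apply _).comp φc) ?_
    exact Continuous.const_smul (φc.comp (slc 0) |>.add (φc.comp ((slc i.1).comp (slc 0)))) i.2
  · obtain ⟨H, h1, h2⟩ := exH
    refine ⟨H, h1, fun x hx y hy h => ?_⟩
    obtain ⟨n, a, e, k⟩ : ∃ n a, ∃ e : ZMod 2, x + y = e • (φ a + φ (sl a n)) := by
      by_cases l : x = y
      · exact ⟨0, 0, 0, by simp [l, two]⟩
      · obtain ⟨_, ⟨n, rfl⟩, a, ha⟩ := h2 hx hy l
        exact ⟨n, a, 1, by simp [← ha]⟩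
    let u : G → G := fun w i => (if i.unpair.1 = 0 then a else if i.unpair.1 = 1 then
      Pi.single n 1 else w) i.unpair.2
    have u0 : ∀ w, sl (u w) 0 = a := fun w => funext fun i => by simp [sl, u]
    have u1 : ∀ w, u w ∈ Z n := fun w => funext fun i => by simp [sl, u]
    have u2 : ∀ w, sl (u w) 2 = w := fun w => funext fun i => by simp [sl, u]
    have h3 := h.preimage_of_injOn (f := fun w => f (n, 0) (u w) + x) fun w _ v _ l => by
      have := congrArg S (add_right_cancel l)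
      rw [S2, S2] at this
      rw [← u2 w, li.injective this, u2]
    refine unc (h3.mono fun w _ => ?_)
    refine ⟨⟨_, mem_iUnion.2 ⟨(n, 0), _, u1 w, rfl⟩, rfl⟩,
        _, mem_iUnion.2 ⟨(n, e), _, u1 w, rfl⟩, ?_⟩
    simp only [f, T, u0, ← k, zero_smul]
    linear_combination two y
  · by_contra! k
    refine noP h1 h2 fun p hp q hq l => by_contra fun m => k p hp q hq ?_
    have key : ∀ r ∈ ov (⋃ i, f i '' Z i.1) p q, ∃ i y y', y ∈ Z i.1 ∧ r = f i y + p ∧ y ≠ y' ∧
        φ y + φ y' = S (p + q) := by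
      rintro _ ⟨⟨_, ⟨_, ⟨i, rfl⟩, y, hy, rfl⟩, rfl⟩, _, ⟨_, ⟨j, rfl⟩, z, hz, rfl⟩, e⟩
      have e1 : f i y + f j z = p + q := by linear_combination e + two (f i y) - two q + two p - two p
      refine ⟨i, y, z, hy, rfl, ?_, by rw [← e1, S1, S2, S2]⟩
      rintro rfl
      have e2 : p + q = (i.2 + j.2) • T i.1 y := by
        rw [← e1, add_smul]
        simp only [f, ← zu y _ _ hy hz]
        linear_combination two fun j => φ y (j + 4)
      generalize i.2 + j.2 = c at e2
      rcases (by decide : ∀ c : ZMod 2, c = 0 ∨ c = 1) c with rfl | rfl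
      · exact l (can (by simpa using e2))
      · exact m (mem_iUnion.2 ⟨i.1, sl y 0, by simpa using e2.symm⟩)
    rcases eq_empty_or_nonempty (ov (⋃ i, f i '' Z i.1) p q) with e | ⟨r, hr⟩
    · rw [e]; exact finite_empty
    obtain ⟨-, a, b, -, -, -, hab⟩ := key r hr
    have fin : ∀ y, {i : ℕ × ZMod 2 | y ∈ Z i.1}.Finite := fun y =>
      ((Subsingleton.finite (s := {n | y ∈ Z n}) fun n h m k => zu y n m h k).prod
        (toFinite univ)).subset fun i hi => ⟨hi, trivial⟩
    refine (((fin a).image fun i => f i a + p).union ((fin b).image fun i => f i b + p)).subset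
      fun r hr => ?_
    obtain ⟨i, y, y', t1, t2, t3, t4⟩ := key r hr
    rcases mem2 (t4.trans hab.symm) t3 with rfl | rfl
    · exact .inl ⟨i, t1, t2.symm⟩
    · exact .inr ⟨i, t1, t2.symm⟩

end Pool.Agent.Results.MP_11d5c7_lc.Yes
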